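import Pool.Agent.H72.BF.Targets
import Pool.Agent.H72.BF.Targets2

/-!
Module QPF of the board bf_modules (MP_3cf473_nt): quadratic polynomials in pairs of logarithms,
at most two exceptional lines (helper29).
-/

open Filter

namespace Pool.Agent.H29.BF

open Pool.Agent.H72.BF

lemma ev_ge (c : ℕ) : ∀ᶠ j in (hyperfilter ℕ : Filter ℕ), c ≤ j :=
  Nat.hyperfilter_le_atTop (eventually_ge_atTop c)

lemma fin_deg (σ : Type) [Fintype σ] (d : ℕ) : {m : σ →₀ ℕ | m.degree ≤ d}.Finite := by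
  classical
  refine (Set.finite_Iic (Finsupp.equivFunOnFinite.symm (fun _ : σ => d))).subset ?_
  intro m hm
  rw [Set.mem_Iic, Finsupp.le_def]
  intro i
  exact (Finsupp.le_degree i m).trans hm

/-- a sequence of nonzero integer polynomials with negligible values gives a relation -/
lemma seq_rel (hEVP : T_EVP) {H : ℕ → ℝ} (P : Pkg H) {σ : Type} [Fintype σ] (d : ℕ)
    (Q : ℕ → MvPolynomial σ ℤ) (h0 : ∀ j, Q j ≠ 0) (hd : ∀ j, (Q j).totalDegree ≤ d)
    (hco : ∀ j, ∀ m : σ →₀ ℕ, |(((Q j).coeff m : ℤ) : ℝ)| ≤ H j)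
    (x : ℕ → σ → ℂ) (hx : ∀ i, (fun j => x j i) ∈ P.O)
    (hval : ∀ j, H j ^ ((j : ℝ) + 1) * ‖MvPolynomial.aeval (x j) (Q j)‖ < 1) :
    ∃ Q' : MvPolynomial σ P.kb, Q' ≠ 0 ∧ Q'.totalDegree ≤ d ∧
      MvPolynomial.aeval (fun i => P.ev (fun j => x j i)) Q' = 0 := by
  classical
  have hco' : ∀ j, ∀ m : σ →₀ ℕ, |(((Q j).coeff m : ℤ) : ℝ)| ≤ H j ^ 1 := by
    intro j m; rw [pow_one]; exact hco j m
  obtain ⟨Q', hQd, hQc, hQe⟩ := hEVP H P σ d 1 Q hd hco'
  have hB : ∀ m : σ →₀ ℕ, P.Bd (fun j => (Q j).coeff m) := fun m =>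
    P.bd_of_le 1 (fun j => hco' j m)
  have hQ0 : Q' ≠ 0 := by
    intro hz
    have h1 : ∀ m : σ →₀ ℕ, ∀ᶠ j in (hyperfilter ℕ : Filter ℕ), (Q j).coeff m = 0 := by
      intro m
      rw [← P.evZ_eq_zero (hB m), ← hQc m, hz, MvPolynomial.coeff_zero]
      rfl
    have h2 : ∀ᶠ j in (hyperfilter ℕ : Filter ℕ), ∀ m ∈ {m : σ →₀ ℕ | m.degree ≤ d},
        (Q j).coeff m = 0 := (Filter.eventually_all_finite (fin_deg σ d)).2 fun m _ => h1 m
    obtain ⟨j, hj⟩ := h2.exists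
    apply h0 j
    ext m
    rw [MvPolynomial.coeff_zero]
    by_cases hm : m.degree ≤ d
    · exact hj m hm
    · by_contra hne
      have h3 := MvPolynomial.le_totalDegree (MvPolynomial.mem_support_iff.2 hne)
      have h4 : m.degree = m.sum fun _ e => e := by
        simp [Finsupp.degree, Finsupp.sum]
      have := hd j
      omega
  refine ⟨MvPolynomial.map (algebraMap P.kk P.kb) Q', ?_, ?_, ?_⟩
  · intro h
    apply hQ0
    apply MvPolynomial.map_injective (algebraMap P.kk P.kb) (algebraMap P.kk P.kb).injective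
    rw [h, map_zero]
  · exact (Finset.sup_mono (MvPolynomial.support_map_subset _ _)).trans hQd
  · rw [MvPolynomial.aeval_map_algebraMap, (hQe x hx).2, P.ev_eq_zero (hQe x hx).1]
    intro c
    filter_upwards [ev_ge c] with j hj
    have h1 := P.hH j
    have h2 : H j ^ c ≤ H j ^ ((j : ℝ) + 1) := by
      rw [← Real.rpow_natCast]
      refine Real.rpow_le_rpow_of_exponent_le (by linarith) ?_
      have : (c : ℝ) ≤ j := by exact_mod_cast hj
      linarith
    have h3 : 0 ≤ ‖MvPolynomial.aeval (x j) (Q j)‖ := norm_nonneg _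
    have h4 := hval j
    nlinarith [mul_le_mul_of_nonneg_right h2 h3]

lemma qpf_alg {K F : Type} [Field K] [Field F] [Algebra K F] {t m1 m2 : F}
    (h : LinearIndependent K ![1, t, m1, m2]) {a b c d : K} (hdet : a * d - b * c ≠ 0) :
    LinearIndependent K ![1, t, algebraMap K F a * m1 + algebraMap K F b * m2,
      algebraMap K F c * m1 + algebraMap K F d * m2] := by
  rw [Fintype.linearIndependent_iff] at h ⊢
  intro g hg
  simp only [Fin.sum_univ_four, Matrix.cons_val_zero, Matrix.cons_val_one, Matrix.cons_val,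
    Algebra.smul_def] at hg
  have h1 := h ![g 0, g 1, g 2 * a + g 3 * c, g 2 * b + g 3 * d] (by
    simp only [Fin.sum_univ_four, Matrix.cons_val_zero, Matrix.cons_val_one, Matrix.cons_val,
      Algebra.smul_def, map_add, map_mul]
    rw [← hg]; ring)
  have e0 := h1 0
  have e1 := h1 1
  have e2 := h1 2
  have e3 := h1 3
  simp only [Matrix.cons_val_zero, Matrix.cons_val_one, Matrix.cons_val] at e0 e1 e2 e3
  have e4 : g 2 * (a * d - b * c) = 0 := by linear_combination d * e2 - c * e3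
  have e5 : g 3 * (a * d - b * c) = 0 := by linear_combination a * e3 - b * e2
  have e6 := (mul_eq_zero.1 e4).resolve_right hdet
  have e7 := (mul_eq_zero.1 e5).resolve_right hdet
  intro i
  fin_cases i
  · exact e0
  · exact e1
  · exact e6
  · exact e7

/-- independence of `1, t, y1, y2`, and the third combination -/
lemma qpf_core (hEVP : T_EVP) (hQAD : T_QAD) {H : ℕ → ℝ} (P : Pkg H) (lam0 mu1 mu2 : ℂ)
    (hli : LinearIndependent P.kb ![1, P.cst lam0, P.cst mu1, P.cst mu2])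
    (v : Fin 3 → ℕ → Fin 2 → ℤ) (hv : ∀ s j i, |(v s j i : ℝ)| ≤ H j)
    (h01 : ∀ j, v 0 j 0 * v 1 j 1 - v 0 j 1 * v 1 j 0 ≠ 0)
    (h02 : ∀ j, v 0 j 0 * v 2 j 1 - v 0 j 1 * v 2 j 0 ≠ 0)
    (h12 : ∀ j, v 1 j 0 * v 2 j 1 - v 1 j 1 * v 2 j 0 ≠ 0)
    (Q : Fin 3 → ℕ → MvPolynomial (Fin 2) ℤ) (h0 : ∀ s j, Q s j ≠ 0)
    (hd : ∀ s j, (Q s j).totalDegree ≤ 2)
    (hco : ∀ s j, ∀ m : Fin 2 →₀ ℕ, |(((Q s j).coeff m : ℤ) : ℝ)| ≤ H j)
    (hval : ∀ s j, H j ^ ((j : ℝ) + 1) * ‖MvPolynomial.aeval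
      ![lam0, (v s j 0 : ℂ) * mu1 + (v s j 1 : ℂ) * mu2] (Q s j)‖ < 1) : False := by
  have hB : ∀ s i, P.Bd (fun j => v s j i) := fun s i =>
    P.bd_of_le 1 (fun j => by rw [pow_one]; exact hv s j i)
  -- the residues of the vectors, as elements of `kk`
  let W : Fin 3 → Fin 2 → P.kk := fun s i => ⟨P.evZ (fun j => v s j i), P.evZ_mem (hB s i)⟩
  let w : Fin 3 → Fin 2 → P.kb := fun s i => algebraMap P.kk P.kb (W s i)
  have hw : ∀ s i, algebraMap P.kb P.F (w s i) = P.evZ (fun j => v s j i) := fun s i => rfl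
  have hdet : ∀ s t : Fin 3, (∀ j, v s j 0 * v t j 1 - v s j 1 * v t j 0 ≠ 0) →
      w s 0 * w t 1 - w s 1 * w t 0 ≠ 0 := by
    intro s t hst hz
    have h1 := congrArg (algebraMap P.kb P.F) hz
    rw [map_sub, map_mul, map_mul, map_zero, hw, hw, hw, hw, ← P.evZ_mul (hB s 0) (hB t 1),
      ← P.evZ_mul (hB s 1) (hB t 0), sub_eq_add_neg] at h1
    have hB1 := (hB s 0).mul (hB t 1)
    have hB2 := (hB s 1).mul (hB t 0)
    have h2 : P.evZ (fun j => v s j 0 * v t j 1 - v s j 1 * v t j 0) = 0 := by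
      have e : (fun j => v s j 0 * v t j 1 - v s j 1 * v t j 0) =
          fun j => (v s j 0 * v t j 1) + (-1) * (v s j 1 * v t j 0) := by
        funext j; ring
      rw [e, P.evZ_add hB1 ((P.bd_const (-1)).mul hB2), P.evZ_mul (P.bd_const (-1)) hB2,
        P.evZ_const, ← h1]
      push_cast
      ring
    have hB3 : P.Bd (fun j => v s j 0 * v t j 1 - v s j 1 * v t j 0) := by
      have := hB1.add hB2.neg
      simpa [sub_eq_add_neg] using this
    exact P.evZ_ne_zero hB3 hst h2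
  -- the relations
  have hx : ∀ (s : Fin 3) (i : Fin 2), (fun j => (![lam0, (v s j 0 : ℂ) * mu1 +
      (v s j 1 : ℂ) * mu2] : Fin 2 → ℂ) i) ∈ P.O := by
    intro s i
    fin_cases i
    · exact P.const_mem lam0
    · exact P.O.add_mem (P.O.mul_mem (hB s 0) (P.const_mem mu1))
        (P.O.mul_mem (hB s 1) (P.const_mem mu2))
  have hev : ∀ s : Fin 3, (fun i => P.ev (fun j => (![lam0, (v s j 0 : ℂ) * mu1 +
      (v s j 1 : ℂ) * mu2] : Fin 2 → ℂ) i)) = ![P.cst lam0,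
        algebraMap P.kb P.F (w s 0) * P.cst mu1 + algebraMap P.kb P.F (w s 1) * P.cst mu2] := by
    intro s
    funext i
    fin_cases i
    · rfl
    · show P.ev ((fun j => (v s j 0 : ℂ)) * (fun _ => mu1) + (fun j => (v s j 1 : ℂ)) *
        (fun _ => mu2)) = _
      rw [P.ev_add (P.O.mul_mem (hB s 0) (P.const_mem mu1)) (P.O.mul_mem (hB s 1)
        (P.const_mem mu2)), P.ev_mul (hB s 0) (P.const_mem mu1),
        P.ev_mul (hB s 1) (P.const_mem mu2)]
      rfl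
  have hrel : ∀ s : Fin 3, ∃ Q' : MvPolynomial (Fin 2) P.kb, Q' ≠ 0 ∧ Q'.totalDegree ≤ 2 ∧
      MvPolynomial.aeval ![P.cst lam0,
        algebraMap P.kb P.F (w s 0) * P.cst mu1 + algebraMap P.kb P.F (w s 1) * P.cst mu2] Q' = 0 := by
    intro s
    rw [← hev s]
    exact seq_rel hEVP P 2 (Q s) (h0 s) (hd s) (hco s) _ (hx s) (hval s)
  have hd01 := hdet 0 1 h01
  have hd02 := hdet 0 2 h02
  have hd12 := hdet 1 2 h12
  have hli' := qpf_alg hli hd01
  -- `w 2 = a w 0 + b w 1`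
  set D := w 0 0 * w 1 1 - w 0 1 * w 1 0 with hD
  set a : P.kb := -(w 1 0 * w 2 1 - w 1 1 * w 2 0) / D with ha
  set b : P.kb := (w 0 0 * w 2 1 - w 0 1 * w 2 0) / D with hb
  have ha0 : a ≠ 0 := div_ne_zero (neg_ne_zero.2 hd12) hd01
  have hb0 : b ≠ 0 := div_ne_zero hd02 hd01
  have e0 : w 2 0 = a * w 0 0 + b * w 1 0 := by
    rw [ha, hb]; field_simp; rw [hD]; ring_nf
  have e1 : w 2 1 = a * w 0 1 + b * w 1 1 := by
    rw [ha, hb]; field_simp; rw [hD]; ring_nf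
  refine hQAD P.kb P.F (P.cst lam0) _ _ a b hli' ha0 hb0 (hrel 0) (hrel 1) ?_
  obtain ⟨Q', h1, h2, h3⟩ := hrel 2
  refine ⟨Q', h1, h2, ?_⟩
  rw [← h3, e0, e1]
  congr 3
  rw [map_add, map_add, map_mul, map_mul, map_mul, map_mul]
  ring_nf

theorem qpf (hBF : T_BF) (hPKG : T_PKG) (hBFF : T_BFF) (hEVP : T_EVP) (hQAD : T_QAD) : T_QPF := by
  intro lam0 mu1 mu2 hli hl0 hm1 hm2
  by_contra hcon
  push Not at hcon
  -- the scales
  choose H hH2 hH using fun j : ℕ => hcon ((j : ℝ) + 1) (by positivity)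
  obtain ⟨P⟩ := hPKG H hH2
  -- a bad vector and its polynomial
  have step : ∀ j (a b : Fin 2 → ℤ), a ≠ 0 → b ≠ 0 → ∃ (v : Fin 2 → ℤ)
      (Q : MvPolynomial (Fin 2) ℤ), (∀ i, |(v i : ℝ)| ≤ H j) ∧ v 0 * a 1 ≠ v 1 * a 0 ∧
      v 0 * b 1 ≠ v 1 * b 0 ∧ Q ≠ 0 ∧ Q.totalDegree ≤ 2 ∧
      (∀ m : Fin 2 →₀ ℕ, |((Q.coeff m : ℤ) : ℝ)| ≤ H j) ∧
      H j ^ ((j : ℝ) + 1) * ‖MvPolynomial.aeval
        ![lam0, (v 0 : ℂ) * mu1 + (v 1 : ℂ) * mu2] Q‖ < 1 := by
    intro j a b ha hb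
    obtain ⟨v, h1, h2, h3, Q, h4, h5, h6, h7⟩ := hH j a b ha hb
    exact ⟨v, Q, h1, h2, h3, h4, h5, h6, h7⟩
  have hne1 : (![1, 0] : Fin 2 → ℤ) ≠ 0 := by
    intro h
    have := congrFun h 0
    simp at this
  have st1 := fun j => step j ![1, 0] ![1, 0] hne1 hne1
  choose v0 Q0 a1 a2 a3 a4 a5 a6 a7 using st1
  have hv0 : ∀ j, v0 j ≠ 0 := by
    intro j h
    apply a2 j
    rw [h]; simp
  have st2 := fun j => step j (v0 j) (v0 j) (hv0 j) (hv0 j)
  choose v1 Q1 b1 b2 b3 b4 b5 b6 b7 using st2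
  have hv1 : ∀ j, v1 j ≠ 0 := by
    intro j h
    apply b2 j
    rw [h]; simp
  have st3 := fun j => step j (v0 j) (v1 j) (hv0 j) (hv1 j)
  choose v2 Q2 c1 c2 c3 c4 c5 c6 c7 using st3
  have hal : ∀ i : Fin 3, IsAlgebraic ℚ (Complex.exp (![lam0, mu1, mu2] i)) := by
    intro i
    fin_cases i
    · exact hl0
    · exact hm1
    · exact hm2
  have hli3 := hBFF hBF 3 ![lam0, mu1, mu2] hli hal H P
  have e : (Fin.cons 1 (fun j => P.cst (![lam0, mu1, mu2] j)) : Fin 4 → P.F) =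
      ![1, P.cst lam0, P.cst mu1, P.cst mu2] := by
    funext i
    fin_cases i <;> rfl
  rw [e] at hli3
  refine qpf_core hEVP hQAD P lam0 mu1 mu2 hli3 ![v0, v1, v2] ?_ ?_ ?_ ?_ ![Q0, Q1, Q2]
    ?_ ?_ ?_ ?_
  · intro s j i
    fin_cases s
    · exact a1 j i
    · exact b1 j i
    · exact c1 j i
  · intro j h
    apply b2 j
    simp only [Matrix.cons_val_zero, Matrix.cons_val_one] at h
    linarith
  · intro j h
    apply c2 j
    simp only [Matrix.cons_val_zero, Matrix.cons_val] at h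
    linarith
  · intro j h
    apply c3 j
    simp only [Matrix.cons_val_one, Matrix.cons_val] at h
    linarith
  · intro s j
    fin_cases s
    · exact a4 j
    · exact b4 j
    · exact c4 j
  · intro s j
    fin_cases s
    · exact a5 j
    · exact b5 j
    · exact c5 j
  · intro s j
    fin_cases s
    · exact a6 j
    · exact b6 j
    · exact c6 j
  · intro s j
    fin_cases s
    · exact a7 j
    · exact b7 j
    · exact c7 j

end Pool.Agent.H29.BF
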