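import Pool.Agent.H72.BF.Targets2

/-!
Module LFT of the board bf_modules (MP_3cf473_nt): algebraic elements of the residue field are
residues of sequences of algebraic numbers of bounded degree (helper29).
-/

open Polynomial Filter

namespace Pool.Agent.H29.BF

open Pool.Agent.H72.BF

/-- the nearest root -/
lemma near_root (p : ℂ[X]) (hd : 1 ≤ p.natDegree) (hl : 1 ≤ ‖p.leadingCoeff‖) (z : ℂ) :
    ∃ ρ, p.eval ρ = 0 ∧ ‖z - ρ‖ ^ p.natDegree ≤ ‖p.eval z‖ := by
  have hsp : p.Splits := IsAlgClosed.splits p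
  have hcard : p.roots.card = p.natDegree := hsp.natDegree_eq_card_roots.symm
  have hp0 : p ≠ 0 := by rintro rfl; simp at hd
  have hne : p.roots.toFinset.Nonempty := by
    rw [Multiset.toFinset_nonempty]
    intro h
    rw [h] at hcard
    simp at hcard
    omega
  obtain ⟨ρ, hρ, hmin⟩ := Finset.exists_min_image p.roots.toFinset (fun a => ‖z - a‖) hne
  rw [Multiset.mem_toFinset] at hρ
  refine ⟨ρ, (mem_roots hp0).1 hρ, ?_⟩
  have hprod : p.eval z = p.leadingCoeff * (p.roots.map fun a => z - a).prod := by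
    conv_lhs => rw [hsp.eq_prod_roots]
    rw [eval_mul, eval_C, eval_multiset_prod, Multiset.map_map]
    simp
  have h1 : (p.roots.map fun _ => ‖z - ρ‖).prod ≤ (p.roots.map fun a => ‖z - a‖).prod :=
    Multiset.prod_map_le_prod_map₀ _ _ (fun _ _ => norm_nonneg _)
      (fun a ha => hmin a (Multiset.mem_toFinset.2 ha))
  rw [Multiset.map_const', Multiset.prod_replicate, hcard] at h1
  have h2 : ‖(p.roots.map fun a => z - a).prod‖ = (p.roots.map fun a => ‖z - a‖).prod := by
    have := map_multiset_prod (normHom : ℂ →*₀ ℝ) (p.roots.map fun a => z - a)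
    rw [Multiset.map_map] at this
    exact this
  rw [hprod, norm_mul, h2]
  have h3 : 0 ≤ (p.roots.map fun a => ‖z - a‖).prod := (pow_nonneg (norm_nonneg _) _).trans h1
  nlinarith

/-- the polynomial with given coefficients -/
noncomputable def mkP {R : Type} [CommRing R] (δ : ℕ) (a : ℕ → R) : R[X] :=
  ∑ i ∈ Finset.range (δ + 1), C (a i) * X ^ i

lemma mkP_coeff {R : Type} [CommRing R] (δ : ℕ) (a : ℕ → R) (i : ℕ) :
    (mkP δ a).coeff i = if i ≤ δ then a i else 0 := by
  rw [mkP, finsetSum_coeff]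
  simp only [coeff_C_mul_X_pow]
  rw [Finset.sum_ite_eq]
  simp only [Finset.mem_range, Nat.lt_succ_iff]

lemma mkP_natDegree_le {R : Type} [CommRing R] (δ : ℕ) (a : ℕ → R) :
    (mkP δ a).natDegree ≤ δ := by
  rw [natDegree_le_iff_coeff_eq_zero]
  intro i hi
  rw [mkP_coeff, if_neg (by omega)]

lemma mkP_map {R S : Type} [CommRing R] [CommRing S] (f : R →+* S) (δ : ℕ) (a : ℕ → R) :
    (mkP δ a).map f = mkP δ (fun i => f (a i)) := by
  ext i
  rw [coeff_map, mkP_coeff, mkP_coeff]
  split_ifs <;> simp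

lemma mkP_eval {R : Type} [CommRing R] (δ : ℕ) (a : ℕ → R) (z : R) :
    (mkP δ a).eval z = ∑ i ∈ Finset.range (δ + 1), a i * z ^ i := by
  simp [mkP, eval_finsetSum]

theorem lft (hCLR : T_CLR) : T_LFT := by
  intro H P x hx
  obtain ⟨p, hp0, hpx⟩ := hx
  set δ := p.natDegree with hδ
  have hδ1 : 1 ≤ δ := by
    by_contra hcon
    have h0 : p.natDegree = 0 := by omega
    obtain ⟨a, ha⟩ := natDegree_eq_zero.1 h0
    rw [← ha, aeval_C] at hpx
    have : a = 0 := by
      have := (algebraMap P.kk P.F).injective (hpx.trans (map_zero _).symm)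
      exact this
    apply hp0
    rw [← ha, this, C_0]
  obtain ⟨q, R, c, hq, hq0, hR, hrel⟩ := hCLR H P (Fin (δ + 1)) (fun i => p.coeff i)
  have hqne : P.evZ q ≠ 0 := P.evZ_ne_zero hq hq0
  have hRB : ∀ i, P.Bd (R i) := fun i => P.bd_of_le c (hR i)
  -- the leading coefficient
  have hlead : P.evZ (R (Fin.last δ)) ≠ 0 := by
    rw [← hrel]
    refine mul_ne_zero ?_ hqne
    have : p.coeff δ ≠ 0 := by
      rw [hδ]; exact leadingCoeff_ne_zero.2 hp0
    intro h
    apply this
    exact Subtype.ext (by simpa using h)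
  have hev := P.evZ_dich (hRB (Fin.last δ)) hlead
  classical
  -- the modified coefficients
  let a : ℕ → ℕ → ℤ := fun j i =>
    if R (Fin.last δ) j = 0 then (if i = δ then 1 else 0)
    else (if h : i < δ + 1 then R ⟨i, h⟩ j else 0)
  have haδ : ∀ j, a j δ ≠ 0 := by
    intro j
    by_cases h : R (Fin.last δ) j = 0
    · simp [a, h]
    · have : a j δ = R (Fin.last δ) j := by
        simp only [a, if_neg h]
        rw [dif_pos (by omega : δ < δ + 1)]
        rfl
      rw [this]; exact h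
  have hab : ∀ j i, |(a j i : ℝ)| ≤ H j ^ c := by
    intro j i
    have h1 := P.one_le_pow j c
    by_cases h : R (Fin.last δ) j = 0
    · simp only [a, if_pos h]
      split_ifs
      · simpa using h1
      · simp; linarith
    · simp only [a, if_neg h]
      split_ifs with h2
      · exact hR _ _
      · simp; linarith
  have haev : ∀ i : Fin (δ + 1), ∀ᶠ j in (hyperfilter ℕ : Filter ℕ), (R i j : ℂ) = (a j i : ℂ) := by
    intro i
    filter_upwards [hev] with j hj
    simp only [a, if_neg hj]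
    rw [dif_pos i.2]
  obtain ⟨z, hz, hzx⟩ := P.exists_ev x
  -- the sequence of values
  let w : ℕ → ℂ := fun j => (mkP δ (fun i => (a j i : ℂ))).eval (z j)
  have hw0 : (∑ i : Fin (δ + 1), (fun j => (R i j : ℂ)) * z ^ (i : ℕ)) ∈ P.O ∧
      P.ev (∑ i : Fin (δ + 1), (fun j => (R i j : ℂ)) * z ^ (i : ℕ)) = 0 := by
    have hm : ∀ i ∈ (Finset.univ : Finset (Fin (δ + 1))),
        (fun j => (R i j : ℂ)) * z ^ (i : ℕ) ∈ P.O := fun i _ =>
      P.O.mul_mem (hRB i) (P.O.pow_mem hz _)
    refine ⟨P.O.sum_mem hm, ?_⟩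
    rw [P.ev_sum _ _ hm]
    have : ∀ i : Fin (δ + 1), P.ev ((fun j => (R i j : ℂ)) * z ^ (i : ℕ)) =
        ((p.coeff i : P.kk) : P.F) * x ^ (i : ℕ) * P.evZ q := by
      intro i
      rw [P.ev_mul (hRB i) (P.O.pow_mem hz _), P.ev_pow hz, hzx]
      have h1 := hrel i
      have h2 : P.ev (fun j => (R i j : ℂ)) = P.evZ (R i) := rfl
      rw [h2, ← h1]
      ring
    rw [Finset.sum_congr rfl fun i _ => this i, ← Finset.sum_mul]
    have h3 : ∑ i : Fin (δ + 1), ((p.coeff i : P.kk) : P.F) * x ^ (i : ℕ) = 0 := by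
      rw [← hpx, aeval_eq_sum_range, ← hδ, Finset.sum_range]
      refine Finset.sum_congr rfl fun i _ => ?_
      rw [Algebra.smul_def]
      rfl
    rw [h3, zero_mul]
  have hww := P.ev_congr (w := w) hw0.1 (by
    have : ∀ᶠ j in (hyperfilter ℕ : Filter ℕ), ∀ i : Fin (δ + 1), (R i j : ℂ) = (a j i : ℂ) := by
      rw [Filter.eventually_all]; exact haev
    filter_upwards [this] with j hj
    simp only [w]
    rw [mkP_eval, Finset.sum_apply, Finset.sum_range]
    refine Finset.sum_congr rfl fun i _ => ?_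
    rw [Pi.mul_apply, Pi.pow_apply, hj i])
  have hwO := hww.2
  have hwev : P.ev w = 0 := by rw [← hww.1]; exact hw0.2
  rw [P.ev_eq_zero hwO] at hwev
  -- degrees
  have hnd : ∀ j, (mkP δ (fun i => (a j i : ℂ))).natDegree = δ := by
    intro j
    refine le_antisymm (mkP_natDegree_le _ _) (le_natDegree_of_ne_zero ?_)
    rw [mkP_coeff, if_pos le_rfl]
    exact_mod_cast haδ j
  have hroot : ∀ j, ∃ ρ, (mkP δ (fun i => (a j i : ℂ))).eval ρ = 0 ∧ ‖z j - ρ‖ ^ δ ≤ ‖w j‖ := by
    intro j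
    have := near_root (mkP δ (fun i => (a j i : ℂ))) (by rw [hnd]; exact hδ1) ?_ (z j)
    · rw [hnd] at this; exact this
    · rw [leadingCoeff, hnd, mkP_coeff, if_pos le_rfl, Complex.norm_intCast]
      exact_mod_cast Int.one_le_abs (haδ j)
  choose ρ hρ0 hρ using hroot
  -- `z - ρ` is negligible
  have hneg : ∀ c' : ℕ, ∀ᶠ j in (hyperfilter ℕ : Filter ℕ), ‖(z - ρ) j‖ * H j ^ c' ≤ 1 := by
    intro c'
    filter_upwards [hwev (c' * δ)] with j hj
    have h1 : (‖(z - ρ) j‖ * H j ^ c') ^ δ ≤ 1 := by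
      rw [mul_pow, ← pow_mul]
      refine le_trans (mul_le_mul_of_nonneg_right (hρ j) ?_) hj
      exact (by linarith [P.one_le_pow j (c' * δ)])
    have h0 : 0 ≤ ‖(z - ρ) j‖ * H j ^ c' :=
      mul_nonneg (norm_nonneg _) (by linarith [P.one_le_pow j c'])
    exact (pow_le_one_iff_of_nonneg h0 (by omega)).1 h1
  have hzρ : (z - ρ) ∈ P.O := (P.memO _).2 ⟨0, by
    filter_upwards [hneg 0] with j hj
    simpa using hj⟩
  have hev0 : P.ev (z - ρ) = 0 := (P.ev_eq_zero hzρ).2 hneg
  have hρO : ρ ∈ P.O := by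
    have := P.O.sub_mem hz hzρ
    simpa using this
  refine ⟨δ, c, ρ, hρO, ?_, fun j => ?_⟩
  · rw [P.ev_sub hz hρO, hzx] at hev0
    exact (sub_eq_zero.1 hev0).symm
  · refine ⟨mkP δ (a j), ?_, mkP_natDegree_le _ _, fun i => ?_, ?_⟩
    · intro h
      have := congrArg (fun f => coeff f δ) h
      simp only [mkP_coeff, if_pos le_rfl, coeff_zero] at this
      exact haδ j this
    · rw [mkP_coeff]
      split_ifs
      · exact hab j i
      · simp; linarith [P.one_le_pow j c]
    · rw [aeval_def, ← eval_map, mkP_map]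
      exact hρ0 j

end Pool.Agent.H29.BF
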