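import Pool.Agent.H72.BF.Targets2

/-!
Module PKG of the board bf_modules (MP_3cf473_nt): existence of the residue field (helper29).
-/

open Polynomial Filter

namespace Pool.Agent.H29.BF

open Pool.Agent.H72.BF

section

variable (H : ℕ → ℝ) (hH : ∀ j, 2 ≤ H j)

include hH in
lemma one_le (j c : ℕ) : 1 ≤ H j ^ c := one_le_pow₀ (by linarith [hH j])

/-- the ring of bounded sequences -/
def pO : Subring (ℕ → ℂ) where
  carrier := {z | ∃ c : ℕ, ∀ᶠ j in (hyperfilter ℕ : Filter ℕ), ‖z j‖ ≤ H j ^ c}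
  mul_mem' := by
    rintro z w ⟨c, hc⟩ ⟨d, hd⟩
    refine ⟨c + d, ?_⟩
    filter_upwards [hc, hd] with j h1 h2
    rw [Pi.mul_apply, norm_mul, pow_add]
    exact mul_le_mul h1 h2 (norm_nonneg _) (by linarith [one_le H hH j c])
  one_mem' := ⟨0, Filter.Eventually.of_forall fun j => by simp⟩
  add_mem' := by
    rintro z w ⟨c, hc⟩ ⟨d, hd⟩
    refine ⟨max c d + 1, ?_⟩
    filter_upwards [hc, hd] with j h1 h2
    have h3 : H j ^ c ≤ H j ^ max c d := pow_le_pow_right₀ (by linarith [hH j]) (le_max_left _ _)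
    have h4 : H j ^ d ≤ H j ^ max c d := pow_le_pow_right₀ (by linarith [hH j]) (le_max_right _ _)
    have h5 := one_le H hH j (max c d)
    calc ‖(z + w) j‖ ≤ ‖z j‖ + ‖w j‖ := norm_add_le _ _
      _ ≤ 2 * H j ^ max c d := by linarith
      _ ≤ H j * H j ^ max c d := mul_le_mul_of_nonneg_right (hH j) (by linarith)
      _ = H j ^ (max c d + 1) := by ring
  zero_mem' := ⟨0, Filter.Eventually.of_forall fun j => by simp⟩
  neg_mem' := by
    rintro z ⟨c, hc⟩
    refine ⟨c, ?_⟩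
    filter_upwards [hc] with j h1
    simpa using h1

lemma mem_pO (z : ℕ → ℂ) : z ∈ pO H hH ↔
    ∃ c : ℕ, ∀ᶠ j in (hyperfilter ℕ : Filter ℕ), ‖z j‖ ≤ H j ^ c := Iff.rfl

lemma pO_of_le {z w : ℕ → ℂ} (hw : w ∈ pO H hH) (h : ∀ j, ‖z j‖ ≤ ‖w j‖) : z ∈ pO H hH := by
  obtain ⟨c, hc⟩ := hw
  exact ⟨c, hc.mono fun j hj => (h j).trans hj⟩

/-- the ideal of negligible sequences -/
def pm : Ideal (pO H hH) where
  carrier := {z | ∀ c : ℕ, ∀ᶠ j in (hyperfilter ℕ : Filter ℕ), ‖(z : ℕ → ℂ) j‖ * H j ^ c ≤ 1}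
  add_mem' := by
    intro z w hz hw c
    filter_upwards [hz (c + 1), hw (c + 1)] with j h1 h2
    have h3 := one_le H hH j c
    have h4 := hH j
    have h5 : ‖((z + w : pO H hH) : ℕ → ℂ) j‖ ≤ ‖(z : ℕ → ℂ) j‖ + ‖(w : ℕ → ℂ) j‖ :=
      norm_add_le _ _
    rw [pow_succ] at h1 h2
    have h6 : (‖(z : ℕ → ℂ) j‖ + ‖(w : ℕ → ℂ) j‖) * H j ^ c * H j ≤ 2 := by nlinarith
    have h7 : 0 ≤ (‖(z : ℕ → ℂ) j‖ + ‖(w : ℕ → ℂ) j‖) * H j ^ c := by positivity
    have h8 : (‖(z : ℕ → ℂ) j‖ + ‖(w : ℕ → ℂ) j‖) * H j ^ c ≤ 1 := by nlinarith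
    calc ‖((z + w : pO H hH) : ℕ → ℂ) j‖ * H j ^ c ≤
        (‖(z : ℕ → ℂ) j‖ + ‖(w : ℕ → ℂ) j‖) * H j ^ c :=
          mul_le_mul_of_nonneg_right h5 (by linarith)
      _ ≤ 1 := h8
  zero_mem' := by
    intro c
    exact Filter.Eventually.of_forall fun j => by simp
  smul_mem' := by
    intro z w hw c
    obtain ⟨a, ha⟩ := z.2
    filter_upwards [ha, hw (a + c)] with j h1 h2
    have h3 := one_le H hH j c
    have e : ((z • w : pO H hH) : ℕ → ℂ) j = (z : ℕ → ℂ) j * (w : ℕ → ℂ) j := rfl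
    rw [e, norm_mul]
    calc ‖(z : ℕ → ℂ) j‖ * ‖(w : ℕ → ℂ) j‖ * H j ^ c ≤ H j ^ a * ‖(w : ℕ → ℂ) j‖ * H j ^ c := by
          gcongr
      _ = ‖(w : ℕ → ℂ) j‖ * H j ^ (a + c) := by rw [pow_add]; ring
      _ ≤ 1 := h2

lemma mem_pm (z : pO H hH) : z ∈ pm H hH ↔
    ∀ c : ℕ, ∀ᶠ j in (hyperfilter ℕ : Filter ℕ), ‖(z : ℕ → ℂ) j‖ * H j ^ c ≤ 1 := Iff.rfl

lemma pm_of_ev {z : pO H hH} (h : ∀ᶠ j in (hyperfilter ℕ : Filter ℕ), (z : ℕ → ℂ) j = 0) :
    z ∈ pm H hH := by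
  intro c
  filter_upwards [h] with j hj
  rw [hj]; simp

instance pm_max : (pm H hH).IsMaximal := by
  rw [Ideal.isMaximal_iff]
  constructor
  · intro h
    obtain ⟨j, hj⟩ := (h 1).exists
    have h2 := hH j
    have e : ((1 : pO H hH) : ℕ → ℂ) j = 1 := rfl
    rw [e, norm_one, pow_one] at hj
    linarith
  · intro J x hJ hx hxJ
    rw [mem_pm] at hx
    push Not at hx
    obtain ⟨c, hc⟩ := hx
    have hc' : ∀ᶠ j in (hyperfilter ℕ : Filter ℕ), ¬ ‖(x : ℕ → ℂ) j‖ * H j ^ c ≤ 1 :=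
      hc.mono fun j hj => not_le.2 hj
    have hne : ∀ᶠ j in (hyperfilter ℕ : Filter ℕ), (x : ℕ → ℂ) j ≠ 0 := by
      filter_upwards [hc'] with j hj h0
      apply hj
      rw [h0]; simp
    have hw : (fun j => ((x : ℕ → ℂ) j)⁻¹) ∈ pO H hH := by
      refine ⟨c, ?_⟩
      filter_upwards [hc', hne] with j h1 h2
      push Not at h1
      have hpos : 0 < ‖(x : ℕ → ℂ) j‖ := norm_pos_iff.2 h2
      rw [norm_inv, inv_le_comm₀ hpos (by linarith [one_le H hH j c])]
      have h3 := one_le H hH j c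
      rw [inv_le_iff_one_le_mul₀ (by linarith)]
      linarith
    set w : pO H hH := ⟨fun j => ((x : ℕ → ℂ) j)⁻¹, hw⟩ with hwdef
    have h1 : x * w - 1 ∈ pm H hH := by
      apply pm_of_ev
      filter_upwards [hne] with j hj
      have e : ((x * w - 1 : pO H hH) : ℕ → ℂ) j = (x : ℕ → ℂ) j * ((x : ℕ → ℂ) j)⁻¹ - 1 := rfl
      rw [e, mul_inv_cancel₀ hj, sub_self]
    have h2 : x * w ∈ J := J.mul_mem_right w hxJ
    have h3 : (1 : pO H hH) = x * w - (x * w - 1) := by ring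
    rw [h3]
    exact J.sub_mem h2 (hJ h1)

/-- the residue field -/
abbrev pF : Type := pO H hH ⧸ pm H hH

noncomputable instance pfield : Field (pF H hH) := Ideal.Quotient.field (pm H hH)

lemma pcz : CharZero (pF H hH) := by
  refine charZero_of_inj_zero fun n hn => ?_
  have h1 : Ideal.Quotient.mk (pm H hH) (n : pO H hH) = 0 := by
    rw [map_natCast]; exact hn
  rw [Ideal.Quotient.eq_zero_iff_mem] at h1
  obtain ⟨j, hj⟩ := (h1 1).exists
  have e : (((n : ℕ) : pO H hH) : ℕ → ℂ) j = (n : ℂ) := by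
    simp
  rw [e, Complex.norm_natCast, pow_one] at hj
  have h2 := hH j
  by_contra h0
  have h3 : (1 : ℝ) ≤ n := by exact_mod_cast Nat.one_le_iff_ne_zero.2 h0
  nlinarith

/-- bound for the roots of a monic polynomial -/
lemma root_bound {n : ℕ} (a : ℕ → ℂ) (z : ℂ) (h : z ^ n + ∑ i ∈ Finset.range n, a i * z ^ i = 0) :
    ‖z‖ ≤ 1 + ∑ i ∈ Finset.range n, ‖a i‖ := by
  have hs : 0 ≤ ∑ i ∈ Finset.range n, ‖a i‖ := Finset.sum_nonneg fun _ _ => norm_nonneg _
  by_cases h1 : ‖z‖ ≤ 1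
  · linarith
  push Not at h1
  rcases Nat.eq_zero_or_pos n with hn | hn
  · subst hn
    simp at h
  obtain ⟨k, rfl⟩ : ∃ k, n = k + 1 := ⟨n - 1, by omega⟩
  have h2 : ‖z‖ ^ (k + 1) ≤ (∑ i ∈ Finset.range (k + 1), ‖a i‖) * ‖z‖ ^ k := by
    rw [← norm_pow, eq_neg_of_add_eq_zero_left h, norm_neg, Finset.sum_mul]
    refine (norm_sum_le _ _).trans (Finset.sum_le_sum fun i hi => ?_)
    rw [norm_mul, norm_pow]
    refine mul_le_mul_of_nonneg_left ?_ (norm_nonneg _)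
    exact pow_le_pow_right₀ h1.le (by have := Finset.mem_range.1 hi; omega)
  have h3 : 0 < ‖z‖ ^ k := by positivity
  rw [pow_succ', mul_le_mul_iff_left₀ h3] at h2
  linarith

lemma pac : IsAlgClosed (pF H hH) := by
  refine IsAlgClosed.of_exists_root _ fun p hp hirr => ?_
  set n := p.natDegree with hn
  have hn0 : 0 < n := hirr.natDegree_pos
  choose a ha using fun i => Ideal.Quotient.mk_surjective (I := pm H hH) (p.coeff i)
  have hroot : ∀ j, ∃ z : ℂ, z ^ n + ∑ i ∈ Finset.range n, (a i : ℕ → ℂ) j * z ^ i = 0 := by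
    intro j
    set P : ℂ[X] := X ^ n + ∑ i ∈ Finset.range n, C ((a i : ℕ → ℂ) j) * X ^ i with hP
    have hdeg : P.degree = n := by
      rw [hP, degree_add_eq_left_of_degree_lt, degree_X_pow]
      rw [degree_X_pow]
      refine (degree_sum_le _ _).trans_lt ?_
      rw [Finset.sup_lt_iff (by exact_mod_cast WithBot.bot_lt_coe n)]
      intro i hi
      refine (degree_C_mul_X_pow_le _ _).trans_lt ?_
      exact_mod_cast Finset.mem_range.1 hi
    obtain ⟨z, hz⟩ := Complex.exists_root (f := P) (by rw [hdeg]; exact_mod_cast hn0)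
    refine ⟨z, ?_⟩
    have : P.eval z = 0 := hz
    rw [hP] at this
    simpa [eval_add, eval_pow, eval_finsetSum, eval_mul] using this
  choose z hz using hroot
  have hzO : z ∈ pO H hH := by
    have hw : (1 + ∑ i ∈ Finset.range n, fun j => (‖(a i : ℕ → ℂ) j‖ : ℂ)) ∈ pO H hH := by
      refine add_mem (one_mem _) (sum_mem fun i _ => ?_)
      exact pO_of_le H hH (a i).2 fun j => by simp
    refine pO_of_le H hH hw fun j => ?_
    have h1 := root_bound (fun i => (a i : ℕ → ℂ) j) (z j) (hz j)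
    have e : (1 + ∑ i ∈ Finset.range n, fun j => (‖(a i : ℕ → ℂ) j‖ : ℂ)) j =
        ((1 + ∑ i ∈ Finset.range n, ‖(a i : ℕ → ℂ) j‖ : ℝ) : ℂ) := by
      rw [Pi.add_apply, Pi.one_apply, Finset.sum_apply]
      push_cast
      rfl
    rw [e, Complex.norm_real, Real.norm_of_nonneg]
    · exact h1
    · have : 0 ≤ ∑ i ∈ Finset.range n, ‖(a i : ℕ → ℂ) j‖ :=
        Finset.sum_nonneg fun _ _ => norm_nonneg _
      linarith
  set zz : pO H hH := ⟨z, hzO⟩ with hzz
  refine ⟨Ideal.Quotient.mk (pm H hH) zz, ?_⟩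
  have h0 : zz ^ n + ∑ i ∈ Finset.range n, a i * zz ^ i = 0 := by
    apply Subtype.ext
    funext j
    have := hz j
    simpa [hzz] using this
  have h1 := congrArg (Ideal.Quotient.mk (pm H hH)) h0
  rw [map_add, map_pow, map_sum, map_zero] at h1
  rw [eval_eq_sum_range, Finset.sum_range_succ, ← hn]
  have hlead : p.coeff n = 1 := hp
  rw [hlead, one_mul, add_comm, ← h1]
  congr 1
  refine Finset.sum_congr rfl fun i _ => ?_
  rw [map_mul, map_pow, ha]

end

theorem pkg : T_PKG := by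
  intro H hH
  exact ⟨{ F := pF H hH
           fld := pfield H hH
           cz := pcz H hH
           ac := pac H hH
           hH := hH
           O := pO H hH
           π := Ideal.Quotient.mk (pm H hH)
           surj := Ideal.Quotient.mk_surjective
           memO := fun z => Iff.rfl
           ker := fun z => Ideal.Quotient.eq_zero_iff_mem }⟩

end Pool.Agent.H29.BF
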