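import Pool.Agent.H72.BF.Targets2

/-!
Module KOS of the board bf_modules (MP_3cf473_nt): multiples of two coprime plane curves
(helper29).
-/

open MvPolynomial

namespace Pool.Agent.H29.BF

open Pool.Agent.H72.BF

lemma count_nat (k : ℕ) : Nat.card {p : ℕ × ℕ // p.1 + p.2 ≤ k} = (k + 2).choose 2 := by
  classical
  rw [Nat.subtype_card ((Finset.range (k + 1)).biUnion fun n =>
    Finset.HasAntidiagonal.antidiagonal n)]
  · rw [Finset.card_biUnion]
    · simp only [Finset.Nat.card_antidiagonal]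
      induction k with
      | zero => simp
      | succ k ih =>
        rw [Finset.sum_range_succ, ih]
        have h1 : (k + 1 + 2).choose 2 = (k + 2).choose 1 + (k + 2).choose 2 :=
          Nat.choose_succ_succ (k + 2) 1
        rw [h1, Nat.choose_one_right]
        ring
    · intro a _ b _ hab
      refine Finset.disjoint_left.2 ?_
      intro p hp hq
      rw [Finset.HasAntidiagonal.mem_antidiagonal] at hp hq
      exact hab (hp.symm.trans hq)
  · intro p
    simp only [Finset.mem_biUnion, Finset.mem_range, Finset.HasAntidiagonal.mem_antidiagonal]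
    constructor
    · rintro ⟨n, hn, rfl⟩; omega
    · intro h; exact ⟨p.1 + p.2, by omega, rfl⟩

lemma count2 (k : ℕ) : Nat.card {m : Fin 2 →₀ ℕ // (m.sum fun _ e => e) ≤ k} =
    (k + 2).choose 2 := by
  rw [← count_nat k]
  refine Nat.card_congr ((Finsupp.equivFunOnFinite.trans (finTwoArrowEquiv ℕ)).subtypeEquiv ?_)
  intro m
  rw [Finsupp.sum_fintype _ _ (fun _ => rfl), Fin.sum_univ_two]
  rfl

lemma finrank_U (k : ℕ) : Module.finrank ℚ (restrictTotalDegree (Fin 2) ℚ k) =
    (k + 2).choose 2 := by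
  rw [← count2 k]
  exact Module.finrank_eq_nat_card_basis
    (basisRestrictSupport ℚ {m : Fin 2 →₀ ℕ | (m.sum fun _ e => e) ≤ k})

/-- clearing denominators -/
lemma clear_den (A : MvPolynomial (Fin 2) ℚ) : ∃ (N : ℤ) (A' : MvPolynomial (Fin 2) ℤ),
    N ≠ 0 ∧ map (Int.castRingHom ℚ) A' = C (N : ℚ) * A := by
  induction A using MvPolynomial.induction_on with
  | C a =>
    refine ⟨a.den, C a.num, by exact_mod_cast a.den_ne_zero, ?_⟩
    rw [map_C, ← C_mul]
    congr 1
    simp only [eq_intCast]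
    push_cast
    rw [mul_comm, Rat.mul_den_eq_num]
  | add p q hp hq =>
    obtain ⟨N, A, hN, hA⟩ := hp
    obtain ⟨M, B, hM, hB⟩ := hq
    refine ⟨N * M, C M * A + C N * B, mul_ne_zero hN hM, ?_⟩
    rw [map_add, map_mul, map_mul, hA, hB, map_C, map_C]
    push_cast
    rw [C_mul]
    simp only [eq_intCast]
    ring
  | mul_X p i hp =>
    obtain ⟨N, A, hN, hA⟩ := hp
    refine ⟨N, A * X i, hN, ?_⟩
    rw [map_mul, hA, map_X, mul_assoc]

/-- coprimality over the rationals -/
lemma cop (P Q : MvPolynomial (Fin 2) ℤ) (hP : Irreducible P) (hQ : Irreducible Q)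
    (hPQ : ¬ Associated P Q) (A B : MvPolynomial (Fin 2) ℚ)
    (h : A * map (Int.castRingHom ℚ) P + B * map (Int.castRingHom ℚ) Q = 0) :
    ∃ S, A = S * map (Int.castRingHom ℚ) Q := by
  obtain ⟨N, A', hN, hA⟩ := clear_den A
  obtain ⟨M, B', hM, hB⟩ := clear_den B
  have hinj : Function.Injective (map (Int.castRingHom ℚ) :
      MvPolynomial (Fin 2) ℤ →+* MvPolynomial (Fin 2) ℚ) :=
    map_injective _ (RingHom.injective_int _)
  have h1 : C M * A' * P + C N * B' * Q = 0 := by
    apply hinj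
    rw [map_add, map_mul, map_mul, map_mul, map_mul, hA, hB, map_C, map_C, map_zero]
    simp only [eq_intCast]
    linear_combination (C (M : ℚ) * C (N : ℚ)) * h
  have h2 : Q ∣ C M * A' * P := ⟨-(C N * B'), by linear_combination h1⟩
  rcases hQ.prime.dvd_or_dvd h2 with h3 | h3
  · obtain ⟨S', hS'⟩ := h3
    have h4 : C (M : ℚ) * (C (N : ℚ) * A) = map (Int.castRingHom ℚ) Q *
        map (Int.castRingHom ℚ) S' := by
      rw [← map_mul, ← hS', map_mul, hA, map_C]
      simp only [eq_intCast]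
    refine ⟨C ((M : ℚ)⁻¹ * (N : ℚ)⁻¹) * map (Int.castRingHom ℚ) S', ?_⟩
    have hM' : (M : ℚ) ≠ 0 := by exact_mod_cast hM
    have hN' : (N : ℚ) ≠ 0 := by exact_mod_cast hN
    have h5 : C ((M : ℚ)⁻¹ * (N : ℚ)⁻¹) * (C (M : ℚ) * C (N : ℚ)) =
        (1 : MvPolynomial (Fin 2) ℚ) := by
      rw [← C_mul, ← C_mul]
      rw [show (M : ℚ)⁻¹ * (N : ℚ)⁻¹ * ((M : ℚ) * N) = 1 by field_simp]
      exact C_1
    calc A = C ((M : ℚ)⁻¹ * (N : ℚ)⁻¹) * (C (M : ℚ) * C (N : ℚ)) * A := by rw [h5, one_mul]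
      _ = C ((M : ℚ)⁻¹ * (N : ℚ)⁻¹) * (C (M : ℚ) * (C (N : ℚ) * A)) := by ring
      _ = _ := by rw [h4]; ring
  · exact absurd (hQ.associated_of_dvd hP h3).symm hPQ

lemma tdeg_map (P : MvPolynomial (Fin 2) ℤ) :
    (map (Int.castRingHom ℚ) P).totalDegree = P.totalDegree := by
  unfold totalDegree
  rw [support_map_of_injective _ (RingHom.injective_int _)]

section

variable (P Q : MvPolynomial (Fin 2) ℤ) (a b : ℕ)

/-- the map `(A, B) ↦ A P + B Q` -/
noncomputable def LL : (restrictTotalDegree (Fin 2) ℚ a × restrictTotalDegree (Fin 2) ℚ b) →ₗ[ℚ]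
    MvPolynomial (Fin 2) ℚ :=
  ((LinearMap.mulRight ℚ (map (Int.castRingHom ℚ) P)).comp (Submodule.subtype _)).coprod
    ((LinearMap.mulRight ℚ (map (Int.castRingHom ℚ) Q)).comp (Submodule.subtype _))

lemma LL_apply (x : restrictTotalDegree (Fin 2) ℚ a × restrictTotalDegree (Fin 2) ℚ b) :
    LL P Q a b x = (x.1 : MvPolynomial (Fin 2) ℚ) * map (Int.castRingHom ℚ) P +
      (x.2 : MvPolynomial (Fin 2) ℚ) * map (Int.castRingHom ℚ) Q := rfl

/-- the spanning set -/
def gens (e : ℕ) : Set (MvPolynomial (Fin 2) ℚ) :=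
  {f | ∃ m : Fin 2 →₀ ℕ,
      (m.degree + P.totalDegree ≤ e ∧
        f = MvPolynomial.map (Int.castRingHom ℚ) (MvPolynomial.monomial m 1 * P)) ∨
      (m.degree + Q.totalDegree ≤ e ∧
        f = MvPolynomial.map (Int.castRingHom ℚ) (MvPolynomial.monomial m 1 * Q))}

lemma deg_sum (m : Fin 2 →₀ ℕ) : m.degree = m.sum fun _ e => e := by
  simp [Finsupp.degree, Finsupp.sum]

lemma gens_le (e : ℕ) : Submodule.span ℚ (gens P Q e) ≤ restrictTotalDegree (Fin 2) ℚ e := by
  rw [Submodule.span_le]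
  rintro f ⟨m, ⟨h, rfl⟩ | ⟨h, rfl⟩⟩
  · show _ ∈ restrictTotalDegree (Fin 2) ℚ e
    rw [mem_restrictTotalDegree, tdeg_map]
    refine (totalDegree_mul _ _).trans (le_trans (Nat.add_le_add_right ?_ _) h)
    rw [totalDegree_monomial _ one_ne_zero, deg_sum]
  · show _ ∈ restrictTotalDegree (Fin 2) ℚ e
    rw [mem_restrictTotalDegree, tdeg_map]
    refine (totalDegree_mul _ _).trans (le_trans (Nat.add_le_add_right ?_ _) h)
    rw [totalDegree_monomial _ one_ne_zero, deg_sum]

lemma range_le (e : ℕ) (ha : a + P.totalDegree ≤ e) (hb : b + Q.totalDegree ≤ e) :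
    LinearMap.range (LL P Q a b) ≤ Submodule.span ℚ (gens P Q e) := by
  have key : ∀ (R : MvPolynomial (Fin 2) ℤ) (c : ℕ) (A : MvPolynomial (Fin 2) ℚ),
      A ∈ restrictTotalDegree (Fin 2) ℚ c → ∀ V : Submodule ℚ (MvPolynomial (Fin 2) ℚ),
      (∀ m : Fin 2 →₀ ℕ, m.degree ≤ c →
        MvPolynomial.map (Int.castRingHom ℚ) (MvPolynomial.monomial m 1 * R) ∈ V) →
      A * MvPolynomial.map (Int.castRingHom ℚ) R ∈ V := by
    intro R c A hA V hV
    rw [restrictTotalDegree, restrictSupport_eq_span] at hA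
    induction hA using Submodule.span_induction with
    | mem x hx =>
      obtain ⟨m, hm, rfl⟩ := hx
      have h1 := hV m (by rw [deg_sum]; exact hm)
      rw [map_mul, map_monomial] at h1
      simpa using h1
    | zero => rw [zero_mul]; exact V.zero_mem
    | add x y _ _ hx hy => rw [add_mul]; exact V.add_mem hx hy
    | smul t x _ hx => rw [smul_mul_assoc]; exact V.smul_mem t hx
  rintro f ⟨x, rfl⟩
  rw [LL_apply]
  refine Submodule.add_mem _ ?_ ?_
  · refine key P a _ x.1.2 _ fun m hm => Submodule.subset_span ⟨m, Or.inl ⟨by omega, rfl⟩⟩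
  · refine key Q b _ x.2.2 _ fun m hm => Submodule.subset_span ⟨m, Or.inr ⟨by omega, rfl⟩⟩

lemma ker_le (hP : Irreducible P) (hQ : Irreducible Q) (hPQ : ¬ Associated P Q) (c : ℕ)
    (hc : a ≤ c + Q.totalDegree) :
    Module.finrank ℚ (LinearMap.ker (LL P Q a b)) ≤ (c + 2).choose 2 := by
  have hinj : Function.Injective (map (Int.castRingHom ℚ) :
      MvPolynomial (Fin 2) ℤ →+* MvPolynomial (Fin 2) ℚ) :=
    map_injective _ (RingHom.injective_int _)
  have hQ0 : map (Int.castRingHom ℚ) Q ≠ 0 := by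
    intro h
    exact hQ.ne_zero (hinj (h.trans (map_zero _).symm))
  -- the first component
  let φ : LinearMap.ker (LL P Q a b) →ₗ[ℚ] MvPolynomial (Fin 2) ℚ :=
    ((Submodule.subtype _).comp (LinearMap.fst ℚ _ _)).comp (Submodule.subtype _)
  have hφ : ∀ x : LinearMap.ker (LL P Q a b), φ x = (x.1.1 : MvPolynomial (Fin 2) ℚ) :=
    fun x => rfl
  have hφi : Function.Injective φ := by
    intro x y hxy
    rw [hφ, hφ] at hxy
    have h1 := x.2
    have h2 := y.2
    rw [LinearMap.mem_ker, LL_apply] at h1 h2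
    have h3 : ((x.1.2 : MvPolynomial (Fin 2) ℚ) - (y.1.2 : MvPolynomial (Fin 2) ℚ)) *
        map (Int.castRingHom ℚ) Q = 0 := by
      rw [hxy] at h1
      linear_combination h1 - h2
    have h4 := sub_eq_zero.1 ((mul_eq_zero.1 h3).resolve_right hQ0)
    apply Subtype.ext
    apply Prod.ext
    · exact Subtype.ext hxy
    · exact Subtype.ext h4
  rw [← LinearMap.finrank_range_of_inj hφi, ← finrank_U c]
  have hle : LinearMap.range φ ≤ (restrictTotalDegree (Fin 2) ℚ c).map
      (LinearMap.mulRight ℚ (map (Int.castRingHom ℚ) Q)) := by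
    rintro _ ⟨x, rfl⟩
    rw [hφ]
    have h1 := x.2
    rw [LinearMap.mem_ker, LL_apply] at h1
    obtain ⟨S, hS⟩ := cop P Q hP hQ hPQ _ _ h1
    refine ⟨S, ?_, hS.symm⟩
    show S ∈ restrictTotalDegree (Fin 2) ℚ c
    rw [mem_restrictTotalDegree]
    by_cases hS0 : S = 0
    · rw [hS0]; simp
    · have h2 := (mem_restrictTotalDegree _ _ _).1 x.1.1.2
      rw [hS, totalDegree_mul_of_isDomain hS0 hQ0, tdeg_map] at h2
      omega
  exact (Submodule.finrank_mono hle).trans (Submodule.finrank_map_le _ _)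

end

theorem kos : T_KOS := by
  intro d e P Q hP hQ hPQ hP1 hQ1 hPd hQd he
  show (e + 2).choose 2 ≤ d ^ 2 + Module.finrank ℚ (Submodule.span ℚ (gens P Q e))
  obtain ⟨c, hc⟩ : ∃ c, e = c + P.totalDegree + Q.totalDegree :=
    ⟨e - P.totalDegree - Q.totalDegree, by omega⟩
  set p := P.totalDegree with hp
  set q := Q.totalDegree with hq
  have : FiniteDimensional ℚ (Submodule.span ℚ (gens P Q e)) :=
    Submodule.finiteDimensional_of_le (gens_le P Q e)
  have h1 := Submodule.finrank_mono (range_le P Q (c + q) (c + p) e (by omega) (by omega))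
  have h2 := LinearMap.finrank_range_add_finrank_ker (LL P Q (c + q) (c + p))
  rw [Module.finrank_prod, finrank_U, finrank_U] at h2
  have h3 := ker_le P Q (c + q) (c + p) hP hQ hPQ c le_rfl
  have h4 : (e + 2).choose 2 + (c + 2).choose 2 =
      (c + q + 2).choose 2 + (c + p + 2).choose 2 + p * q := by
    have h5 : (((e + 2).choose 2 + (c + 2).choose 2 : ℕ) : ℚ) =
        (((c + q + 2).choose 2 + (c + p + 2).choose 2 + p * q : ℕ) : ℚ) := by
      rw [hc]
      push_cast [Nat.cast_choose_two]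
      ring
    exact_mod_cast h5
  have h6 : p * q ≤ d ^ 2 := by
    rw [sq]; exact Nat.mul_le_mul hPd hQd
  omega

end Pool.Agent.H29.BF
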